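import Pool.Agent.H529.F.FDefs

/-!
# Task FW of the certificate for `DHL[44,2]` (helper529): the conditions on the weights
-/

set_option autoImplicit false

open Finset

namespace Pool.Agent.H181.DHL

open Pool.Agent.H95R2.BG.Cert (look)
open Pool.Agent.H529.F

/-! ### The weights in ordinary form -/

theorem wpos_eq (TM wm bs BI GB N1 K pb n : ℕ) : wpos TM wm bs BI GB N1 K pb n =
    if n / bs + pb ≤ BI then
      (if n / bs + pb + GB ≤ BI then 1048576 else
        4194304 * (N1 * look TM wm (BI - (n / bs + pb))) /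
          (1024 * (2 * N1 + (n + K)) + 4 * (N1 * look TM wm (BI - (n / bs + pb)))))
    else 0 := by
  unfold wpos
  simp only [Bool.cond_eq_ite, Nat.ble_eq]
  rfl

theorem wneg_eq (TM wm bs BI N1 K pb n : ℕ) : wneg TM wm bs BI N1 K pb n =
    if n / bs + pb ≤ BI then 0 else
      4194304 * (N1 * look TM wm (n / bs + pb - BI - 1)) / (1024 * (2 * N1 - (n + K))) + 1 := by
  unfold wneg
  simp only [Bool.cond_eq_ite, Nat.ble_eq]
  rfl

theorem wdif_eq (TM wm bs BI GB N1 K p1 p2 n : ℕ) : wdif TM wm bs BI GB N1 K p1 p2 n =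
    if n / bs + p2 + GB ≤ BI then 0 else
      (wpos TM wm bs BI GB N1 K p1 n + wneg TM wm bs BI N1 K p2 n) -
        (wpos TM wm bs BI GB N1 K p2 n + wneg TM wm bs BI N1 K p1 n) := by
  unfold wdif
  simp only [Bool.cond_eq_ite, Nat.ble_eq]
  rfl

/-! ### Telescoping -/

/-- the increments of the table -/
noncomputable def mm (T : ℕ → ℕ) (j : ℕ) : ℝ :=
  ((T j : ℝ) - (if j = 0 then 0 else (T (j - 1) : ℝ))) / 1024

theorem sum_mm (T : ℕ → ℕ) (k : ℕ) : ∑ j ∈ range (k + 1), mm T j = (T k : ℝ) / 1024 := by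
  induction k with
  | zero => simp [mm]
  | succ k ih =>
    rw [sum_range_succ, ih]
    simp only [mm, Nat.add_eq_zero_iff, one_ne_zero, and_false, if_false, Nat.add_sub_cancel]
    ring

theorem tel (TM wm GB k : ℕ) (hk : k < GB) (P : ℕ → Prop) [DecidablePred P]
    (hP : ∀ j, P j ↔ j ≤ k) :
    ∑ j : Fin GB, (if P (j : ℕ) then muT TM wm GB j else 0) = (look TM wm k : ℝ) / 1024 := by
  have e1 : ∀ j : Fin GB, (if P (j : ℕ) then muT TM wm GB j else 0) =
      (fun j : ℕ => if j ≤ k then mm (look TM wm) j else 0) j := by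
    intro j
    show _ = if (j : ℕ) ≤ k then mm (look TM wm) j else 0
    by_cases h : (j : ℕ) ≤ k
    · rw [if_pos h, if_pos ((hP j).2 h)]
      rfl
    · rw [if_neg h, if_neg fun h' => h ((hP j).1 h')]
  rw [sum_congr rfl fun j _ => e1 j,
    Fin.sum_univ_eq_sum_range (fun j : ℕ => if j ≤ k then mm (look TM wm) j else 0) GB,
    ← sum_filter]
  have e2 : (range GB).filter (fun j => j ≤ k) = range (k + 1) := by
    ext j
    simp only [mem_filter, mem_range]
    omega
  rw [e2, sum_mm]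

/-! ### Arithmetic of the blocks -/

theorem block_pos {bs BI K L pb n k : ℕ} (hL : L + 1 = K + (BI + 1) * bs)
    (hk : n / bs + pb + k = BI) :
    L + 1 + n % bs = n + K + bs * pb + bs * k + bs := by
  have h1 := Nat.div_add_mod n bs
  rw [hL, ← hk]
  have h2 : (n / bs + pb + k + 1) * bs = bs * (n / bs) + bs * pb + bs * k + bs := by ring
  rw [h2]
  omega

theorem block_neg {bs BI K L pb n k : ℕ} (hL : L + 1 = K + (BI + 1) * bs)
    (hk : n / bs + pb = BI + 1 + k) :
    n + K + bs * pb = L + bs * k + n % bs + 1 := by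
  have h1 := Nat.div_add_mod n bs
  have h2 : bs * (n / bs) + bs * pb = (BI + 1) * bs + bs * k := by
    have : bs * (n / bs) + bs * pb = (n / bs + pb) * bs := by ring
    rw [this, hk]
    ring
  omega

/-- monotonicity of the table -/
theorem mono {T : ℕ → ℕ} {GB : ℕ} (h : ∀ k, k + 1 < GB → T k ≤ T (k + 1)) {i j : ℕ} (hij : i ≤ j)
    (hj : j < GB) : T i ≤ T j := by
  induction j with
  | zero =>
    have : i = 0 := by omega
    rw [this]
  | succ j ih =>
    rcases Nat.lt_or_ge i (j + 1) with h1 | h1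
    · exact (ih (by omega) (by omega)).trans (h j hj)
    · have : i = j + 1 := by omega
      rw [this]

theorem frac_le {N1 T E : ℕ} : 4194304 * (N1 * T) / (E + 4 * (N1 * T)) ≤ 1048576 := by
  rcases Nat.eq_zero_or_pos (E + 4 * (N1 * T)) with h | h
  · rw [h, Nat.div_zero]
    exact Nat.zero_le _
  · apply Nat.div_le_of_le_mul
    nlinarith [Nat.zero_le E]

theorem frac_mono {N1 T1 T2 E : ℕ} (hE : 0 < E) (h : T2 ≤ T1) :
    4194304 * (N1 * T2) / (E + 4 * (N1 * T2)) ≤ 4194304 * (N1 * T1) / (E + 4 * (N1 * T1)) := by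
  obtain ⟨x, hx⟩ : ∃ x, x = 4194304 * (N1 * T2) / (E + 4 * (N1 * T2)) := ⟨_, rfl⟩
  rw [← hx, Nat.le_div_iff_mul_le (by positivity)]
  have h1 : x * (E + 4 * (N1 * T2)) ≤ 4194304 * (N1 * T2) := by
    rw [hx]
    exact Nat.div_mul_le_self _ _
  have h2 : x ≤ 1048576 := by rw [hx]; exact frac_le
  obtain ⟨t, rfl⟩ := Nat.exists_eq_add_of_le h
  have h3 : x * (E + 4 * (N1 * (T2 + t))) = x * (E + 4 * (N1 * T2)) + x * (4 * (N1 * t)) := by ring
  have h4 : x * (4 * (N1 * t)) ≤ 1048576 * (4 * (N1 * t)) := Nat.mul_le_mul_right _ h2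
  have h5 : 4194304 * (N1 * (T2 + t)) = 4194304 * (N1 * T2) + 1048576 * (4 * (N1 * t)) := by ring
  rw [h3, h5]
  exact Nat.add_le_add h1 h4

theorem wpos_le (TM wm bs BI GB N1 K pb n : ℕ) : wpos TM wm bs BI GB N1 K pb n ≤ 1048576 := by
  rw [wpos_eq]
  split_ifs
  · exact le_rfl
  · exact frac_le
  · exact Nat.zero_le _

theorem wpos_anti {TM wm bs BI GB N1 K p1 p2 n : ℕ} (hN : 0 < N1)
    (hT : ∀ k, k + 1 < GB → look TM wm k ≤ look TM wm (k + 1)) (hp : p1 ≤ p2) :
    wpos TM wm bs BI GB N1 K p2 n ≤ wpos TM wm bs BI GB N1 K p1 n := by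
  rw [wpos_eq TM wm bs BI GB N1 K p2 n]
  split_ifs with h1 h2
  · rw [wpos_eq, if_pos (by omega), if_pos (by omega)]
  · rw [wpos_eq, if_pos (by omega)]
    split_ifs with h3
    · exact frac_le
    · exact frac_mono (by positivity) (mono hT (by omega) (by omega))
  · exact Nat.zero_le _

theorem wneg_mono {TM wm bs BI GB N1 K p1 p2 n : ℕ}
    (hT : ∀ k, k + 1 < GB → look TM wm k ≤ look TM wm (k + 1)) (hp : p1 ≤ p2)
    (hG : BI < n / bs + p2 → n / bs + p2 - BI - 1 < GB) :
    wneg TM wm bs BI N1 K p1 n ≤ wneg TM wm bs BI N1 K p2 n := by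
  rw [wneg_eq TM wm bs BI N1 K p1 n]
  split_ifs with h1
  · exact Nat.zero_le _
  · rw [wneg_eq, if_neg (by omega)]
    refine Nat.add_le_add_right (Nat.div_le_div_right ?_) 1
    exact Nat.mul_le_mul_left _ (Nat.mul_le_mul_left _ (mono hT (by omega) (hG (by omega))))

/-- the positive part as a real number -/
theorem pos_bound (N1 T n K : ℕ) (hN : 0 < N1) :
    ((4194304 * (N1 * T) / (1024 * (2 * N1 + (n + K)) + 4 * (N1 * T)) : ℕ) : ℝ) / 1048576 ≤
      1 - 1 / (1 + 4 / (2 + ((n + K : ℕ) : ℝ) / N1) * ((T : ℝ) / 1024)) := by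
  have hN' : (0 : ℝ) < N1 := by exact_mod_cast hN
  have hT : (0 : ℝ) ≤ T := Nat.cast_nonneg T
  have hnK : (0 : ℝ) ≤ ((n + K : ℕ) : ℝ) := Nat.cast_nonneg _
  have h1 : ((4194304 * (N1 * T) / (1024 * (2 * N1 + (n + K)) + 4 * (N1 * T)) : ℕ) : ℝ) ≤
      (4194304 * ((N1 : ℝ) * T)) / (1024 * (2 * N1 + ((n + K : ℕ) : ℝ)) + 4 * (N1 * T)) := by
    refine Nat.cast_div_le.trans (le_of_eq ?_)
    push_cast
    rfl
  have h2 : 1 - 1 / (1 + 4 / (2 + ((n + K : ℕ) : ℝ) / N1) * ((T : ℝ) / 1024)) =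
      (4194304 * ((N1 : ℝ) * T)) / (1024 * (2 * N1 + ((n + K : ℕ) : ℝ)) + 4 * (N1 * T)) /
        1048576 := by
    generalize ((n + K : ℕ) : ℝ) = x at hnK ⊢
    have h3 : (0 : ℝ) < 2 * N1 + x := by positivity
    have h4 : (0 : ℝ) < 1024 * (2 * N1 + x) + 4 * (N1 * T) := by positivity
    have h5 : 4 / (2 + x / N1) * ((T : ℝ) / 1024) = 4 * (N1 * T) / (1024 * (2 * N1 + x)) := by
      field_simp
    rw [h5]
    have h6 : 1 + 4 * ((N1 : ℝ) * T) / (1024 * (2 * N1 + x)) =
        (1024 * (2 * N1 + x) + 4 * (N1 * T)) / (1024 * (2 * N1 + x)) := by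
      field_simp
    rw [h6, one_div_div]
    field_simp
    ring
  rw [h2]
  exact div_le_div_of_nonneg_right h1 (by norm_num)

/-- the negative part as a real number -/
theorem neg_bound (N1 T n K : ℕ) (hN : 0 < N1) (hnK : n + K < 2 * N1) :
    4 * ((T : ℝ) / 1024) / (2 - ((n + K : ℕ) : ℝ) / N1) ≤
      ((4194304 * (N1 * T) / (1024 * (2 * N1 - (n + K))) + 1 : ℕ) : ℝ) / 1048576 := by
  have hN' : (0 : ℝ) < N1 := by exact_mod_cast hN
  obtain ⟨x, hx⟩ : ∃ x : ℕ, x = n + K := ⟨_, rfl⟩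
  rw [← hx] at hnK ⊢
  have hx' : (x : ℝ) < 2 * N1 := by exact_mod_cast hnK
  have h3 : (0 : ℝ) < 2 * N1 - x := by linarith
  have h1 : (4194304 * ((N1 : ℝ) * T)) / (1024 * (2 * N1 - x)) <
      ((4194304 * (N1 * T) / (1024 * (2 * N1 - x)) + 1 : ℕ) : ℝ) := by
    have h4 : 0 < 1024 * (2 * N1 - x) := by omega
    have h5 := Nat.lt_div_mul_add (a := 4194304 * (N1 * T)) h4
    rw [div_lt_iff₀ (by positivity)]
    have h6 : (((1024 * (2 * N1 - x) : ℕ)) : ℝ) = 1024 * (2 * N1 - x) := by
      push_cast [Nat.cast_sub hnK.le]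
      ring
    rw [← h6]
    have h7 : 4194304 * (N1 * T) <
        (4194304 * (N1 * T) / (1024 * (2 * N1 - x)) + 1) * (1024 * (2 * N1 - x)) := by
      rw [add_mul, one_mul]
      exact h5
    exact_mod_cast h7
  have h2 : 4 * ((T : ℝ) / 1024) / (2 - (x : ℝ) / N1) =
      (4194304 * ((N1 : ℝ) * T)) / (1024 * (2 * N1 - x)) / 1048576 := by
    have h8 : 2 - (x : ℝ) / N1 = (2 * N1 - x) / N1 := by field_simp
    rw [h8]
    field_simp
    ring
  rw [h2]
  exact (div_le_div_of_nonneg_right h1.le (by norm_num))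

theorem fw : S_W := by
  intro TM wm bs BI GB N1 K NN L pm hbs hN1 hL hT hNN hpm
  -- the blocks outside
  have hout : ∀ pb, pb ≤ pm → ∀ n, n < NN → BI < n / bs + pb → n / bs + pb - BI - 1 < GB := by
    intro pb hpb n hn h
    obtain ⟨k, hk⟩ := Nat.exists_eq_add_of_le (Nat.succ_le_of_lt h)
    have hk' : n / bs + pb = BI + 1 + k := hk
    have h1 := block_neg hL hk'
    have h2 : bs * pb ≤ bs * pm := Nat.mul_le_mul_left _ hpb
    have h3 : bs * k < GB * bs := by omega
    have h4 : k < GB := by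
      rw [mul_comm GB bs] at h3
      exact Nat.lt_of_mul_lt_mul_left h3
    omega
  refine ⟨?_, ?_, ?_, ?_, ?_, ?_⟩
  · intro j
    unfold muT
    apply div_nonneg _ (by norm_num)
    split_ifs with h
    · simp
    · have h1 := hT ((j : ℕ) - 1) (by omega)
      rw [Nat.sub_add_cancel (by omega)] at h1
      have : (look TM wm (j - 1) : ℝ) ≤ look TM wm j := by exact_mod_cast h1
      linarith
  · intro pb _ n _ _
    unfold Wt
    have h1 := wpos_le TM wm bs BI GB N1 K pb n
    have h2 : (wpos TM wm bs BI GB N1 K pb n : ℝ) ≤ 1048576 := by exact_mod_cast h1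
    rw [div_le_one (by norm_num)]
    have h3 : (0 : ℝ) ≤ wneg TM wm bs BI N1 K pb n := Nat.cast_nonneg _
    linarith
  · intro pb _ n _ hlt hle
    have hin : n / bs + pb ≤ BI := by
      by_contra h
      obtain ⟨k, hk⟩ := Nat.exists_eq_add_of_le (Nat.succ_le_of_lt (not_le.1 h))
      have h1 := block_neg (k := k) hL hk
      omega
    obtain ⟨k, hk⟩ := Nat.exists_eq_add_of_le hin
    have hb := block_pos hL hk.symm
    have hr : n % bs < bs := Nat.mod_lt _ hbs
    have hkG : k < GB := by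
      have : bs * k < bs * GB := by
        rw [mul_comm bs GB]
        omega
      exact Nat.lt_of_mul_lt_mul_left this
    have hsub : BI - (n / bs + pb) = k := by omega
    rw [tel TM wm GB k hkG (fun j => bs * j ≤ L - (n + K + bs * pb)) ?_]
    · unfold Wt
      rw [wpos_eq, wneg_eq, if_pos hin, if_pos hin, if_neg (by omega), hsub, Nat.cast_zero, sub_zero]
      exact pos_bound N1 _ n K hN1
    · intro j
      constructor
      · intro h
        by_contra hj
        have h1 : bs * (k + 1) ≤ bs * j := Nat.mul_le_mul_left _ (by omega)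
        rw [mul_add, mul_one] at h1
        omega
      · intro h
        have h1 : bs * j ≤ bs * k := Nat.mul_le_mul_left _ h
        omega
  · intro pb hpb n hn hlt
    have hin : ¬ n / bs + pb ≤ BI := by
      intro h
      obtain ⟨k, hk⟩ := Nat.exists_eq_add_of_le h
      have h1 := block_pos hL hk.symm
      have hr : n % bs < bs := Nat.mod_lt _ hbs
      omega
    obtain ⟨k, hk⟩ := Nat.exists_eq_add_of_le (Nat.succ_le_of_lt (not_le.1 hin))
    have hk' : n / bs + pb = BI + 1 + k := hk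
    have hb := block_neg hL hk'
    have hr : n % bs < bs := Nat.mod_lt _ hbs
    have hkG := hout pb hpb n hn (not_le.1 hin)
    have hsub : n / bs + pb - BI - 1 = k := by omega
    rw [hsub] at hkG
    rw [tel TM wm GB k hkG (fun j => bs * j < n + K + bs * pb - L) ?_]
    · unfold Wt
      rw [wpos_eq, wneg_eq, if_neg hin, if_neg hin, hsub, Nat.cast_zero, zero_sub, neg_div, neg_le_neg_iff]
      exact neg_bound N1 _ n K hN1 (by omega)
    · intro j
      constructor
      · intro h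
        by_contra hj
        have h1 : bs * (k + 1) ≤ bs * j := Nat.mul_le_mul_left _ (by omega)
        rw [mul_add, mul_one] at h1
        omega
      · intro h
        have h1 : bs * j ≤ bs * k := Nat.mul_le_mul_left _ h
        omega
  · intro p1 p2 hp hp2 n hn
    have h1 := wpos_anti (n := n) (K := K) (bs := bs) (BI := BI) hN1 hT hp
    have h2 := wneg_mono (N1 := N1) (K := K) hT hp (hout p2 hp2 n hn)
    have h1' : (wpos TM wm bs BI GB N1 K p2 n : ℝ) ≤ wpos TM wm bs BI GB N1 K p1 n := by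
      exact_mod_cast h1
    have h2' : (wneg TM wm bs BI N1 K p1 n : ℝ) ≤ wneg TM wm bs BI N1 K p2 n := by
      exact_mod_cast h2
    refine ⟨?_, ?_⟩
    · unfold Wt
      rw [← sub_div]
      apply div_le_div_of_nonneg_right _ (by norm_num : (0 : ℝ) ≤ 1048576)
      rw [wdif_eq]
      split_ifs with h
      · rw [wpos_eq TM wm bs BI GB N1 K p1 n, wpos_eq TM wm bs BI GB N1 K p2 n,
          wneg_eq TM wm bs BI N1 K p1 n, wneg_eq TM wm bs BI N1 K p2 n,
          if_pos (by omega), if_pos (by omega), if_pos (by omega), if_pos (by omega),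
          if_pos (by omega), if_pos (by omega)]
        simp
      · have h3 : (((wpos TM wm bs BI GB N1 K p1 n + wneg TM wm bs BI N1 K p2 n : ℕ)) : ℝ) -
            ((wpos TM wm bs BI GB N1 K p2 n + wneg TM wm bs BI N1 K p1 n : ℕ) : ℝ) ≤
            (((wpos TM wm bs BI GB N1 K p1 n + wneg TM wm bs BI N1 K p2 n) -
            (wpos TM wm bs BI GB N1 K p2 n + wneg TM wm bs BI N1 K p1 n) : ℕ) : ℝ) := by
          rw [Nat.cast_sub (by omega)]
        refine le_trans (le_of_eq ?_) h3
        push_cast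
        ring
    · unfold Wt
      apply div_le_div_of_nonneg_right _ (by norm_num : (0 : ℝ) ≤ 1048576)
      linarith
  · intro Mm hMm pb hpb n hn
    refine ⟨wpos_le TM wm bs BI GB N1 K pb n, ?_⟩
    rw [wneg_eq]
    split_ifs with h
    · exact Nat.zero_le _
    · refine Nat.add_le_add_right ?_ 1
      have h1 := hMm _ (hout pb hpb n hn (not_le.1 h))
      refine Nat.div_le_div ?_ ?_ ?_
      · exact Nat.mul_le_mul_left _ (Nat.mul_le_mul_left _ h1)
      · omega
      · omega

end Pool.Agent.H181.DHL
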